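import Pool.Agent.R190.Bang.Final

set_option autoImplicit false

namespace Pool.Agent.Results.MP_325d65_an.NotBangBang

open Pool.Agent.R190.Bang

/-- Disproof of Q1 of MP_325d65_an, in dimension `d = 1` with `q = 1`, `Ω = (0,1)`: for every
`L ∈ (0,1)` and every `T > 0` there is a system satisfying (H1), (H2), (H_L) which has an optimal
profile that is continuous with values in `[δ, 1 - δ]`, `δ > 0`, everywhere (so it is nowhere
equal to a characteristic function). -/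
theorem result (L T : ℝ) (hL0 : 0 < L) (hL1 : L < 1) (hT : 0 < T) :
    ∃ (S : ℝ → L2 →L[ℂ] L2) (φ : HilbertBasis ℕ ℂ L2) (lam : ℕ → ℂ) (f : ℕ → ℝ → ℂ),
      IsC0 S ∧ H1 S φ lam ∧ H2 φ f ∧ HL L lam f ∧ (∀ y ≠ 0, S T y ≠ 0) ∧
      ∃ a : ℝ → ℝ, Continuous a ∧ (∃ δ > 0, ∀ x, δ ≤ a x ∧ a x ≤ 1 - δ) ∧
        IsOptimal S T L a :=
  main L T hL0 hL1 hT

end Pool.Agent.Results.MP_325d65_an.NotBangBang
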